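import Pool.Agent.Helper98.GY.Stmts

/-!
Isometric extensions (MP_7a8f48_an), sheet GY: row CMP, the metric of `X` and the metric of the fibres.
-/

set_option autoImplicit false

open Set Filter Topology

namespace Pool.Agent.Helper89.GY

open Pool.Agent.Helper98.GY

/-- a continuous function which is positive on a compact set has a positive lower bound -/
theorem cmp_min {Z : Type} [TopologicalSpace Z] {K : Set Z} (hK : IsCompact K) {f : Z → ℝ}
    (hf : ContinuousOn f K) (hp : ∀ z ∈ K, 0 < f z) : ∃ δ : ℝ, 0 < δ ∧ ∀ z ∈ K, δ ≤ f z := by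
  rcases K.eq_empty_or_nonempty with h | h
  · exact ⟨1, one_pos, by simp [h]⟩
  · obtain ⟨z, hz, hm⟩ := hK.exists_isMinOn h hf
    exact ⟨f z, hp z hz, fun w hw => hm hw⟩

theorem st_CMP : ST_CMP := by
  intro X Y _ _ _ _ π S τ ρ h
  obtain ⟨hπ, -, hc, h0, hs, ht, -⟩ := h
  have hZ : IsClosed {z : X × X | π z.1 = π z.2} :=
    isClosed_eq (hπ.comp continuous_fst) (hπ.comp continuous_snd)
  have hpos : ∀ x x', π x = π x' → x ≠ x' → 0 < ρ x x' := by
    intro x x' he hne
    have h1 : ρ x x = 0 := (h0 x x rfl).2 rfl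
    have h2 := ht x x' x he he.symm
    rw [hs x' x he.symm, h1] at h2
    have h3 : ρ x x' ≠ 0 := fun h4 => hne ((h0 x x' he).1 h4)
    have h5 : 0 ≤ ρ x x' := by linarith
    exact lt_of_le_of_ne h5 h3.symm
  constructor
  · intro ε hε
    have hK : IsCompact ({z : X × X | π z.1 = π z.2} ∩ {z | ε ≤ dist z.1 z.2}) :=
      (hZ.inter (isClosed_le continuous_const continuous_dist)).isCompact
    obtain ⟨δ, hδ, H⟩ := cmp_min hK (hc.mono inter_subset_left) (by
      rintro ⟨x, x'⟩ ⟨he, hd⟩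
      refine hpos x x' he ?_
      have hd' : ε ≤ dist x x' := hd
      rintro rfl
      rw [dist_self] at hd'
      linarith)
    refine ⟨δ, hδ, ?_⟩
    intro x x' he hr
    by_contra hd
    exact absurd (H (x, x') ⟨he, not_lt.1 hd⟩) (not_le.2 hr)
  · intro ε hε
    have hK : IsCompact ({z : X × X | π z.1 = π z.2} ∩
        (fun z : X × X => ρ z.1 z.2) ⁻¹' Ici ε) :=
      (hc.preimage_isClosed_of_isClosed hZ isClosed_Ici).isCompact
    obtain ⟨δ, hδ, H⟩ := cmp_min hK (f := fun z : X × X => dist z.1 z.2)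
      continuous_dist.continuousOn (by
      rintro ⟨x, x'⟩ ⟨he, hd⟩
      have hd' : ε ≤ ρ x x' := hd
      show 0 < dist x x'
      rw [dist_pos]
      rintro rfl
      rw [(h0 x x rfl).2 rfl] at hd'
      linarith)
    refine ⟨δ, hδ, ?_⟩
    intro x x' he hr
    by_contra hd
    exact absurd (H (x, x') ⟨he, not_lt.1 hd⟩) (not_le.2 hr)

end Pool.Agent.Helper89.GY
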