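import Pool.Agent.Helper89.GY.CMP

/-!
Isometric extensions (MP_7a8f48_an), sheet GY: row MOD, the model of the fibres.
-/

set_option autoImplicit false

open Set Filter Topology

namespace Pool.Agent.Helper89.GY

open Pool.Agent.Helper98.GY

open Pool.Agent.Helper16.BZ (EQ)

/-- an isometry of a compact metric space into itself is onto -/
theorem mod_surj {M : Type} [MetricSpace M] [CompactSpace M] {f : M → M} (hf : Isometry f) :
    Function.Surjective f := by
  intro x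
  by_contra hx
  have hK : IsClosed (range f) := (isCompact_range hf.continuous).isClosed
  have hx' : x ∉ range f := hx
  obtain ⟨ε, hε, H⟩ := Metric.isOpen_iff.1 hK.isOpen_compl x hx'
  have hfar : ∀ z, ε ≤ dist x (f z) := by
    intro z
    by_contra h
    rw [not_le, dist_comm] at h
    exact H h ⟨z, rfl⟩
  have hi : ∀ (n : ℕ) (a b : M), dist (f^[n] a) (f^[n] b) = dist a b := by
    intro n
    induction n with
    | zero => intro a b; rfl
    | succ n ih =>
      intro a b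
      rw [Function.iterate_succ_apply, Function.iterate_succ_apply, ih, hf.dist_eq]
  have hit : ∀ n k : ℕ, ε ≤ dist (f^[n] x) (f^[n + (k + 1)] x) := by
    intro n k
    rw [Function.iterate_add_apply, hi, Function.iterate_succ_apply']
    exact hfar _
  obtain ⟨a, -, φ, hφ, ha⟩ := isCompact_univ.tendsto_subseq (x := fun n => f^[n] x)
    (fun _ => mem_univ _)
  have hc := ha.cauchySeq
  obtain ⟨N, hN⟩ := Metric.cauchySeq_iff.1 hc ε hε
  have h1 := hN N le_rfl (N + 1) (by omega)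
  have h2 := hφ (show N < N + 1 by omega)
  obtain ⟨k, hk⟩ : ∃ k, φ (N + 1) = φ N + (k + 1) := ⟨φ (N + 1) - φ N - 1, by omega⟩
  simp only [Function.comp] at h1
  rw [hk] at h1
  exact absurd h1 (not_lt.2 (hit _ _))

/-- the fibre over a point -/
def Fib {X Y : Type} (π : X → Y) (y : Y) : Type := {x : X // π x = y}

variable {X Y : Type} [MetricSpace X] [CompactSpace X] [MetricSpace Y] [CompactSpace Y]
  {π : X → Y} {S : Y → Y} {τ : X → X} {ρ : X → X → ℝ}

/-- the metric of the fibre -/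
@[instance_reducible] noncomputable def fibMetric (h : IsoExt π S τ ρ) (y : Y) : MetricSpace (Fib π y) where
  dist a b := ρ a.1 b.1
  dist_self a := (h.2.2.2.1 a.1 a.1 rfl).2 rfl
  dist_comm a b := h.2.2.2.2.1 a.1 b.1 (a.2.trans b.2.symm)
  dist_triangle a b c := h.2.2.2.2.2.1 a.1 b.1 c.1 (a.2.trans b.2.symm) (b.2.trans c.2.symm)
  eq_of_dist_eq_zero := by
    intro a b hab
    exact Subtype.ext ((h.2.2.2.1 a.1 b.1 (a.2.trans b.2.symm)).1 hab)

theorem fib_compact (hC : ST_CMP) (h : IsoExt π S τ ρ) (y : Y) :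
    @CompactSpace (Fib π y) (fibMetric h y).toUniformSpace.toTopologicalSpace := by
  let _ := fibMetric h y
  have hcl : IsCompact {x : X | π x = y} :=
    (isClosed_singleton.preimage h.1).isCompact
  have : CompactSpace {x : X // π x = y} := isCompact_iff_compactSpace.1 hcl
  obtain ⟨ι, hι⟩ : ∃ ι : {x : X // π x = y} → Fib π y, ∀ x, (ι x).1 = x.1 := ⟨fun x => x, fun _ => rfl⟩
  have hcont : Continuous ι := by
    rw [Metric.continuous_iff]
    intro b ε hε
    obtain ⟨δ, hδ, H⟩ := (hC X Y π S τ ρ h).2 ε hε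
    refine ⟨δ, hδ, ?_⟩
    intro a hab
    have h1 := H a.1 b.1 (a.2.trans b.2.symm) hab
    show ρ (ι a).1 (ι b).1 < ε
    rw [hι, hι]
    exact h1
  constructor
  have e : (univ : Set (Fib π y)) = range ι := by
    refine (eq_univ_of_forall fun x => ?_).symm
    exact ⟨⟨x.1, x.2⟩, Subtype.ext (hι _)⟩
  rw [e]
  exact isCompact_range hcont

/-- isometric maps into fibres are continuous -/
theorem emb_mk (hC : ST_CMP) (h : IsoExt π S τ ρ) {M : Type} [MetricSpace M] {y : Y}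
    (f : M → X) (h1 : ∀ m, π (f m) = y) (h2 : ∀ m m', ρ (f m) (f m') = dist m m') :
    ∃ θ ∈ Emb π ρ M y, ∀ m, (θ : C(M, X)) m = f m := by
  have hf : Continuous f := by
    rw [Metric.continuous_iff]
    intro b ε hε
    obtain ⟨δ, hδ, H⟩ := (hC X Y π S τ ρ h).1 ε hε
    refine ⟨δ, hδ, ?_⟩
    intro a hab
    refine H (f a) (f b) ((h1 a).trans (h1 b).symm) ?_
    rw [h2]
    exact hab
  exact ⟨⟨f, hf⟩, ⟨h1, h2⟩, fun m => rfl⟩

omit [CompactSpace X] [CompactSpace Y] in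
theorem emb_inj (h : IsoExt π S τ ρ) {M : Type} [MetricSpace M] {y : Y} {θ : C(M, X)}
    (hθ : θ ∈ Emb π ρ M y) : Function.Injective θ := by
  intro a b hab
  have h1 := hθ.2 a b
  rw [hab, (h.2.2.2.1 (θ b) (θ b) rfl).2 rfl] at h1
  exact dist_eq_zero.1 h1.symm

theorem st_MOD (hC : ST_CMP) (hE : ST_EQC) (hB : ST_EMB) : ST_MOD := by
  intro X Y _ _ _ _ _ _ ν _ π S τ ρ x₀ h hEQ hF
  let _ := fibMetric h (π x₀)
  have _ := fib_compact hC h (π x₀)
  -- every embedding is onto the fibre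
  have hon : ∀ (y : Y) (θ : C(Fib π (π x₀), X)), θ ∈ Emb π ρ (Fib π (π x₀)) y →
      ∀ x, π x = y → ∃ m, θ m = x := by
    intro y θ hθ x hx
    obtain ⟨g, hg⟩ := hB X Y ν π S τ ρ h hEQ hF y (π x₀)
    let f : Fib π (π x₀) → Fib π (π x₀) := fun m => ⟨g (θ m), (hg (θ m) (hθ.1 m)).1⟩
    have hf : Isometry f := by
      refine Isometry.of_dist_eq ?_
      intro m m'
      show ρ (g (θ m)) (g (θ m')) = dist m m'
      rw [(hg (θ m) (hθ.1 m)).2 (θ m') (hθ.1 m'), hθ.2]
    obtain ⟨m, hm⟩ := mod_surj hf ⟨g x, (hg x hx).1⟩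
    refine ⟨m, ?_⟩
    have h1 : g (θ m) = g x := congrArg Subtype.val hm
    have h2 := (hg x hx).2 (θ m) (hθ.1 m)
    rw [h1, (h.2.2.2.1 (g x) (g x) rfl).2 rfl] at h2
    exact ((h.2.2.2.1 x (θ m) (hx.trans (hθ.1 m).symm)).1 h2.symm).symm
  refine ⟨Fib π (π x₀), inferInstance, inferInstance, fun y => Emb π ρ (Fib π (π x₀)) y,
    ⟨⟨x₀, rfl⟩⟩, ?_, ?_, ?_, ?_, ?_, ?_⟩
  · intro y
    obtain ⟨g, hg⟩ := hB X Y ν π S τ ρ h hEQ hF (π x₀) y
    obtain ⟨θ, hθ, -⟩ := emb_mk hC h (M := Fib π (π x₀)) (y := y) (fun m => g m.1)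
      (fun m => (hg m.1 m.2).1) (fun m m' => (hg m.1 m.2).2 m'.1 m'.2)
    exact ⟨θ, hθ⟩
  · intro y θ hθ
    refine ⟨emb_inj h hθ, fun x => ⟨hon y θ hθ x, ?_⟩⟩
    rintro ⟨m, rfl⟩
    exact hθ.1 m
  · intro y θ hθ θ' hθ'
    choose k hk using fun m => hon y θ hθ (θ' m) (hθ'.1 m)
    have hiso : Isometry k := by
      refine Isometry.of_dist_eq ?_
      intro m m'
      rw [← hθ.2, hk, hk, hθ'.2]
    have hsurj := mod_surj hiso
    refine ⟨⟨Equiv.ofBijective k ⟨hiso.injective, hsurj⟩, hiso⟩, ?_⟩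
    intro m
    exact (hk m).symm
  · intro y θ hθ k
    obtain ⟨θ', h1, h2⟩ := emb_mk hC h (M := Fib π (π x₀)) (y := y) (fun m => θ (k m))
      (fun m => hθ.1 _) (fun m m' => by rw [hθ.2, k.dist_eq])
    exact ⟨θ', h1, h2⟩
  · intro y θ hθ
    obtain ⟨θ', h1, h2⟩ := emb_mk hC h (M := Fib π (π x₀)) (y := S y) (fun m => τ (θ m))
      (fun m => by rw [h.2.1, hθ.1]) (fun m m' => by
        rw [h.2.2.2.2.2.2 _ _ ((hθ.1 m).trans (hθ.1 m').symm), hθ.2])
    exact ⟨θ', h1, h2⟩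
  · exact hE X Y π S τ ρ (Fib π (π x₀)) h

end Pool.Agent.Helper89.GY
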